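import Mathlib
import Pool.Agent.H692.RB.XY

/-!
# Sorting `X + Y` with randomized decision trees with few rounds

Two sets `X` and `Y` of `2 n` real numbers each are given; the pairs of an element of `X` and an element
of `Y` have to be sorted by their sums. How many tests does a randomized algorithm need, if the tests
are made in `r` rounds? (The tests of one round are made simultaneously, so they may depend on the
outcomes of the previous rounds, but not on each other.)

The definitions of the trees are in `Pool/Agent/H692/KS/Model.lean`, for a continuous family `pot` of
special inputs with parameters in a space `P`:

* `Shallow pot f`: the function `f` of the input (with values in the integers) is locally constant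
  near `pot x` for a dense set of parameters `x`;
* `Regular pot f`: the real function `f` of the input is, for generic (a comeagre set of) parameters
  `x`, differentiable at `pot x`, with a value or a derivative which is not zero;
* `RTree pot β`: decision trees with outputs in `β`; a node asks for the value of a shallow function
  (`free`), or it is a `round`, which asks at the same time for the signs (negative, zero, positive)
  of any number of regular functions (tests). The trees may be infinite, but all branches are finite;
* `run`, `rounds`, `tests`: the output and the numbers of the rounds and of the tests (of all rounds
  together) on the path of the computation. Nodes `free` are not counted, and there may be any number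
  of them.

A randomized tree is a finite family `t ρ` of trees with probabilities `p ρ`; `prob p Q` is the
probability of `Q` (`Pool/Agent/H692/RT/Main.lean`). The input is a function
`w : Fin 4 × Fin n → ℝ`: `X` consists of the numbers `w (0, i)` and `w (1, i)`, and `Y` of the numbers
`w (2, i)` and `w (3, i)`. The special inputs `pot c4 y` with `c4 = (1, -1, 1, -1)` (see `KS/Final.lean`
and `RB/XY.lean`) are those for which `w (p, i) = w p` depends only on the part `p` and
`w 0 + w 2 = w 1 + w 3`. In `RB/XY.lean`: `Pairs n` (the pairs of an element of `X` and an element of
`Y`), `sm w q` (the sum of a pair), `Sorted w pos` (the positions `pos q` of the pairs are those of a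
list which is sorted by the sums), and `SortsXY` (the randomized tree sorts, if all the sums are
different; in particular the elements of `X` are different, and those of `Y`). In `RB/Final.lean`:
`Bound`.

More generally (part 2) the numbers are divided into `K + 1` parts, and the signs of all the linear
forms with one number from each part and given nonzero coefficients have to be found, if none of them
is zero (`SignsK`; `val c w s` is the value of the form of the tuple `s`).

All analytic functions which are not zero of the second order for all the special inputs are regular
(part 3), for example all nonzero affine functions of any number of variables. Free are for example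
the comparisons of numbers of different parts and all binary digits of the numbers.

Result: a randomized tree with at most `r` rounds which sorts `X + Y` with probability `(1 + γ) / 2`
makes for some input with different sums on average at least `T` tests with
`87 (6 T) ^ r ≥ γ ^ (r + 2) n ^ (r + 3)`. So `T ≥ c n ^ (1 + 3 / r)`, where `c > 0` depends only on
`γ`: one needs `n ^ 4` tests in one round and `n ^ (5 / 2)` tests in two rounds. Also `n (log n) ^ a`
tests suffice only if the number of rounds is at least `(3 log n) / ((a + C) log log n)`. Without a
bound for the number of rounds `O (n (log n) ^ 2)` comparisons of differences of two elements suffice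
(Kane, Lovett and Moran), and `O (n ^ 2)` comparisons of sums (Fredman).

Proof. See `Pool/Agent/Results/MP_8f87b2_lc/RandomFewRounds.lean`. Here a random tree has to
distinguish two inputs for which a form with one number from each of the four parts has very small
values with different signs, and which are otherwise the same. An assignment `M` gives to each variable
`j` of the last part one variable of each other part; there are `n ^ (3 n)` assignments. For the input
`u M` the forms of the tuples of `M` vanish, up to very small changes, and so a form with `j` as first
variable of the last part which is a combination of the forms of the tuples of `M` has to be among the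
tests, with probability at least `γ`, for each `j`. Such forms determine `M`; but by the Sauer-Shelah
lemma there are not many possible courses of the computation.
-/

set_option autoImplicit false

namespace Pool.Agent.Results.MP_852c2d_lc.FewRoundSorting

open Pool.Agent.H692.KS
open Pool.Agent.H692.RB (Bound c4 Pairs SortsXY SignsK)

/-- 1. Let `t ρ` be decision trees with at most `r ≥ 1` rounds, where `ρ` has the probability `p ρ`,
which sort `X + Y`, if all the sums are different, with probability `(1 + γ) / 2` and with at most `T`
tests on average (`SortsXY`); `X` and `Y` have `2 n` elements. Then the inequalities `Bound 3 γ r n T`
hold.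
2. The same for trees which find the signs of all linear forms with `K + 1` variables from different
parts, with nonzero coefficients `c p`, for inputs in any open set `W` which contains a special input
(`SignsK`), with `Bound K γ r n T`.
3. An analytic function is regular if for some special input its value or its derivative is not
zero. -/
theorem result :
    (∀ r n : ℕ, 1 ≤ r → 1 ≤ n → ∀ (Ω : Type) [Fintype Ω] (p : Ω → ℝ)
      (t : Ω → RTree (pot c4 : (Fin 4 → ℝ) → Fin 4 × Fin n → ℝ) (Pairs n → ℕ)) (γ T : ℝ), 0 < γ →
      SortsXY p t γ T r → Bound 3 γ r n T) ∧
    (∀ K r n : ℕ, 1 ≤ r → 1 ≤ n → ∀ c : Fin (K + 1) → ℝ, (∀ p, c p ≠ 0) →
      ∀ W : Set (Var (K + 1) n → ℝ), IsOpen W → (∃ y, pot c y ∈ W) →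
      ∀ (Ω : Type) [Fintype Ω] (p : Ω → ℝ)
      (t : Ω → RTree (pot c : (Fin (K + 1) → ℝ) → Var (K + 1) n → ℝ) (Tup (K + 1) n → Bool))
      (γ T : ℝ), 0 < γ → SignsK c W p t γ T r → Bound K γ r n T) ∧
    (∀ (K n : ℕ) (c : Fin (K + 1) → ℝ) (f : (Var (K + 1) n → ℝ) → ℝ),
      AnalyticOnNhd ℝ f Set.univ →
      (∃ y, f (pot c y) ≠ 0 ∨ fderiv ℝ f (pot c y) ≠ 0) → Regular (pot c) f) :=
  ⟨fun _ _ hr hn _ _ _ _ _ _ hγ h => Pool.Agent.H692.RB.sorts_xy hγ hr hn h,
    fun _ _ _ hr hn _ hc _ hW hy _ _ _ _ _ _ hγ h =>
      Pool.Agent.H692.RB.signs hc hW hy hγ hr hn h,
    fun _ _ c _ hf h => regular_analytic (pot_analytic c) hf h⟩

end Pool.Agent.Results.MP_852c2d_lc.FewRoundSorting
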